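import Pool.Agent.Helper97_WH.Orb

/-!
# EXTEND
-/

namespace Pool.Agent.Helper35_WH

open H97

theorem extend : ExtendStatement := by
  classical
  intro Q D hS hF α u hσ hA
  obtain ⟨U, hU1, hU2, hU3⟩ := strip_fun D hS u (fun x _ => hA x)
  have hflag : ∀ x, (D.e x).1.2 = false → U (cor D x) = u x := fun x hx =>
    hU3 _ x hx (orb_refl _)
  -- the parity argument: `z` is the set of vertical rim elements whose chord is split by `c`
  have key : ∀ (κ₀ : Q.K) (a : α), U κ₀ = a → (Q.eta κ₀ ≠ κ₀ → U (Q.eta κ₀) ≠ a) →
      (∀ x, (D.e x).1.2 = true → cor D x = κ₀ → u x ≠ a) → False := by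
    intro κ₀ a h0 h1 h2
    obtain ⟨c, hc1, hc2, hc3⟩ := hF κ₀
    have hcc : c (Q.fc κ₀) ≠ c κ₀ := (hc3 κ₀).2 (Or.inl rfl)
    -- number of corners
    let N : Finset Q.K := Finset.univ.filter (fun κ => U κ = a ∧ c κ = true)
    have hN1 : (N.card : ZMod 2) =
        ((N.filter (fun κ => Q.nu κ = κ)).card : ZMod 2) := by
      refine parity_inv Q.nu Q.nunu N (fun k hk => ?_)
      simp only [N, Finset.mem_filter, Finset.mem_univ, true_and] at hk ⊢
      rw [hU1, hc1]; exact hk
    -- the second count
    have hN2 : (N.card : ZMod 2) = 1 := by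
      let k1 : Q.K := if c κ₀ = true then κ₀ else Q.fc κ₀
      have hk1 : k1 ∈ N := by
        simp only [N, Finset.mem_filter, Finset.mem_univ, true_and, k1]
        by_cases h : c κ₀ = true
        · rw [if_pos h]; exact ⟨h0, h⟩
        · rw [if_neg h]
          refine ⟨by rw [hU2]; exact h0, ?_⟩
          rw [Bool.not_eq_true] at h
          rw [h] at hcc
          simpa using hcc
      rw [← Finset.card_erase_add_one hk1]
      push_cast
      have h3 : (((N.erase k1).card : ℕ) : ZMod 2) = 0 := by
        have hk : ∀ k ∈ N.erase k1, k ≠ κ₀ ∧ k ≠ Q.fc κ₀ ∧ k ≠ Q.eta κ₀ ∧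
            k ≠ Q.fc (Q.eta κ₀) := by
          intro k hk
          simp only [N, Finset.mem_erase, Finset.mem_filter, Finset.mem_univ, true_and] at hk
          obtain ⟨hk1, hk2, hk3⟩ := hk
          have e1 : k ≠ κ₀ := by
            rintro rfl
            apply hk1
            simp only [k1]
            rw [if_pos hk3]
          have e2 : k ≠ Q.fc κ₀ := by
            rintro rfl
            apply hk1
            simp only [k1]
            rw [if_neg]
            intro h
            rw [h, hk3] at hcc
            exact hcc rfl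
          refine ⟨e1, e2, ?_, ?_⟩
          · rintro rfl
            by_cases he : Q.eta κ₀ = κ₀
            · exact e1 he
            · exact h1 he hk2
          · rintro rfl
            by_cases he : Q.eta κ₀ = κ₀
            · rw [he] at e2; exact e2 rfl
            · rw [hU2] at hk2
              exact h1 he hk2
        refine parity_free Q.fc Q.fcfc _ ?_ ?_
        · intro k hk'
          have h4 := hk k hk'
          simp only [N, Finset.mem_erase, Finset.mem_filter, Finset.mem_univ, true_and] at hk' ⊢
          have h5 : c (Q.fc k) = c k := by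
            by_contra h
            rcases (hc3 k).1 h with h | h | h | h
            · exact h4.1 h
            · exact h4.2.1 h
            · exact h4.2.2.1 h
            · exact h4.2.2.2 h
          refine ⟨?_, by rw [hU2]; exact hk'.2.1, by rw [h5]; exact hk'.2.2⟩
          intro h6
          have h7 : k = Q.fc k1 := by rw [← h6, Q.fcfc]
          simp only [k1] at h7
          by_cases h : c κ₀ = true
          · rw [if_pos h] at h7; exact h4.2.1 h7
          · rw [if_neg h, Q.fcfc] at h7; exact h4.1 h7
        · intro k _ h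
          have := Q.colC_fc k
          rw [h] at this
          cases h' : Q.colC k <;> rw [h'] at this <;> simp at this
      rw [h3, zero_add]
    -- rim elements
    let E1 : Finset D.R.E := Finset.univ.filter
      (fun x => (D.e x).1.2 = false ∧ u x = a ∧ c (cor D x) = true)
    let E2 : Finset D.R.E := Finset.univ.filter
      (fun x => (D.e x).1.2 = true ∧ u x = a ∧ c (cor D x) = true)
    let E3 : Finset D.R.E := Finset.univ.filter (fun x => u x = a ∧ c (cor D x) = true)
    have hE3 : (E3.card : ZMod 2) = 0 := by
      refine parity_free D.R.σ D.R.σσ E3 ?_ (fun k _ => D.R.σ_ne k)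
      intro x hx
      simp only [E3, Finset.mem_filter, Finset.mem_univ, true_and] at hx ⊢
      exact ⟨by rw [hσ]; exact hx.1, by rw [cor_σ D c hc1 hc2]; exact hx.2⟩
    have hE : E3.card = E1.card + E2.card := by
      rw [← Finset.card_union_of_disjoint]
      · congr 1
        ext x
        simp only [E1, E2, E3, Finset.mem_filter, Finset.mem_univ, true_and, Finset.mem_union]
        cases (D.e x).1.2 <;> simp
      · rw [Finset.disjoint_left]
        intro x hx hx'
        simp only [E1, E2, Finset.mem_filter, Finset.mem_univ, true_and] at hx hx'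
        rw [hx.1] at hx'
        simp at hx'
    have hE1 : E1.card = (N.filter (fun κ => Q.nu κ = κ)).card := by
      refine Finset.card_bij (fun x _ => cor D x) ?_ ?_ ?_
      · intro x hx
        simp only [E1, N, Finset.mem_filter, Finset.mem_univ, true_and] at hx ⊢
        exact ⟨⟨by rw [hflag x hx.1]; exact hx.2.1, hx.2.2⟩, bd_false D hx.1⟩
      · intro x hx y hy h
        simp only [E1, Finset.mem_filter, Finset.mem_univ, true_and] at hx hy
        exact ext_cor D h (by rw [hx.1, hy.1])
      · intro κ hκ
        simp only [N, Finset.mem_filter, Finset.mem_univ, true_and] at hκ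
        refine ⟨flagH D κ hκ.2, ?_, flagH_cor D κ hκ.2⟩
        simp only [E1, Finset.mem_filter, Finset.mem_univ, true_and]
        refine ⟨flagH_snd D κ hκ.2, ?_, by rw [flagH_cor]; exact hκ.1.2⟩
        rw [← hflag _ (flagH_snd D κ hκ.2), flagH_cor]
        exact hκ.1.1
    have hE2 : (E2.card : ZMod 2) = 0 := by
      refine parity_free D.AV.A D.AV.AA E2 ?_ (fun k _ => D.AV.A_ne k)
      intro x hx
      simp only [E2, Finset.mem_filter, Finset.mem_univ, true_and] at hx ⊢
      obtain ⟨hx1, hx2, hx3⟩ := hx
      obtain ⟨hy1, hy2⟩ := cor_AV_true D hx1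
      refine ⟨hy2, by rw [hA]; exact hx2, ?_⟩
      rw [hy1]
      by_contra h
      have h4 : c (Q.fc (cor D x)) ≠ c (cor D x) := by
        rw [hx3]; exact h
      have hbd := bd_true D hx1
      have hneta : ∀ κ, Q.eta κ = κ → ∀ k, k = κ → Q.eta k = k := by
        intro κ hκ k hk; rw [hk, hκ]
      -- the boundary side is the side of κ₀
      have hcase : cor D x = κ₀ ∨ cor D x = Q.fc κ₀ := by
        rcases (hc3 (cor D x)).1 h4 with h5 | h5 | h5 | h5
        · exact Or.inl h5
        · exact Or.inr h5
        · left
          have h6 : Q.eta (Q.eta κ₀) = Q.eta κ₀ := by rw [← h5]; exact hbd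
          rw [Q.etaeta] at h6
          rw [h5, ← h6]
        · right
          have h6 : Q.eta (Q.fc (Q.eta κ₀)) = Q.fc (Q.eta κ₀) := by rw [← h5]; exact hbd
          rw [Q.etafc, Q.etaeta] at h6
          rw [h5, ← h6]
      rcases hcase with h5 | h5
      · exact h2 x hx1 h5 hx2
      · refine h2 (D.AV.A x) hy2 ?_ (by rw [hA]; exact hx2)
        rw [hy1, h5, Q.fcfc]
    have hfin : (E3.card : ZMod 2) = 1 := by
      rw [hE]
      push_cast
      rw [hE2, add_zero, hE1, ← hN1, hN2]
    rw [hE3] at hfin
    exact absurd hfin (by decide)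
  have hUeta : ∀ κ, U (Q.eta κ) = U κ := by
    intro κ
    by_contra h
    have hne : Q.eta κ ≠ κ := fun h' => h (by rw [h'])
    refine key κ (U κ) rfl (fun _ => h) (fun x hx hx' => ?_)
    exact absurd (by rw [← hx']; exact bd_true D hx) hne
  refine ⟨U, hU1, hUeta, hU2, fun x => ?_⟩
  cases hx : (D.e x).1.2
  · exact hflag x hx
  · by_contra h
    refine key (cor D x) (U (cor D x)) rfl (fun h' => absurd (bd_true D hx) h') ?_
    intro y hy1 hy2 hy3
    have : y = x := ext_cor D hy2 (by rw [hy1, hx])
    rw [this] at hy3
    exact h hy3.symm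

end Pool.Agent.Helper35_WH
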