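import Pool.Agent.Helper97_WH.REC

/-!
# GAUGE
-/

namespace Pool.Agent.Helper35_WH

open H97

theorem gauge (h2 : ExtendStatement) : GaugeStatement := by
  classical
  intro Q D hS hF M _ vV vH p vV' vH' p' hR hR' hp hp' hbv hch
  have huσ : ∀ x, p (cor D (D.R.σ x)) * (p' (cor D (D.R.σ x)))⁻¹ =
      p (cor D x) * (p' (cor D x))⁻¹ := by
    intro x
    rw [cor_σ D p hp.nu hp.eta, cor_σ D p' hp'.nu hp'.eta]
  have huA : ∀ x, p (cor D (D.AV.A x)) * (p' (cor D (D.AV.A x)))⁻¹ =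
      p (cor D x) * (p' (cor D x))⁻¹ := by
    intro x
    cases hx : (D.e x).1.2
    · have h1 : (p (cor D x))⁻¹ * p (cor D (D.AV.A x)) =
          (p' (cor D x))⁻¹ * p' (cor D (D.AV.A x)) := hch x hx
      have h3 : p (cor D (D.AV.A x)) = p (cor D x) *
          ((p' (cor D x))⁻¹ * p' (cor D (D.AV.A x))) := by rw [← h1]; group
      rw [h3]; group
    · have h1 := hbv x
      rw [bv_true D hx, bv_true D hx, hp.fc, hp'.fc] at h1
      rw [(cor_AV_true D hx).1]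
      have h3 : p (Q.fc (cor D x)) = p (cor D x) *
          ((p' (cor D x))⁻¹ * p' (Q.fc (cor D x))) := by rw [← h1]; group
      rw [h3]; group
  obtain ⟨U, hU1, hU2, hU3, hU4⟩ := h2 Q D hS hF M
    (fun x => p (cor D x) * (p' (cor D x))⁻¹) huσ huA
  have hp'' : Q.Pot vV' (fun κ => U κ * p' κ) := by
    refine ⟨fun κ => ?_, fun κ => ?_, fun κ => ?_⟩
    · show U (Q.nu κ) * p' (Q.nu κ) = U κ * p' κ
      rw [hU1, hp'.nu]
    · show U (Q.eta κ) * p' (Q.eta κ) = U κ * p' κ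
      rw [hU2, hp'.eta]
    · show vV' κ = (U κ * p' κ)⁻¹ * (U (Q.fc κ) * p' (Q.fc κ))
      rw [hU3, hp'.fc]; group
  have hcor : ∀ x, U (cor D x) * p' (cor D x) = p (cor D x) := by
    intro x
    have h3 : U (cor D x) = p (cor D x) * (p' (cor D x))⁻¹ := hU4 x
    rw [h3]; group
  have hHH : ∀ κ, HH vH' (fun κ => U κ * p' κ) κ = HH vH p κ := by
    intro κ
    obtain ⟨x, hx1, hx2⟩ := strip_exists D hS κ
    have e1 := orb_const (HH vH' (fun κ => U κ * p' κ)) (HH_nu hR' hp'') (HH_fc hR' hp'') hx2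
    have e2 := orb_const (HH vH p) (HH_nu hR hp) (HH_fc hR hp) hx2
    rw [← e1, ← e2]
    unfold HH
    have h3 := hcor x
    have h4 := hcor (D.R.φ x)
    rw [(cor_φ_false D hx1).1] at h4
    have h5 := hbv x
    rw [bv_false D hx1, bv_false D hx1] at h5
    show U (cor D x) * p' (cor D x) * vH' (cor D x) * (U (Q.fa (cor D x)) *
      p' (Q.fa (cor D x)))⁻¹ = _
    rw [h3, h4, h5]
  refine ⟨fun κ => (p κ)⁻¹ * (U κ * p' κ), fun κ => ?_, fun κ => ?_, fun x => ?_, fun κ => ?_,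
    fun κ => ?_⟩
  · show (p (Q.nu κ))⁻¹ * (U (Q.nu κ) * p' (Q.nu κ)) = (p κ)⁻¹ * (U κ * p' κ)
    rw [hp.nu, hU1, hp'.nu]
  · show (p (Q.eta κ))⁻¹ * (U (Q.eta κ) * p' (Q.eta κ)) = (p κ)⁻¹ * (U κ * p' κ)
    rw [hp.eta, hU2, hp'.eta]
  · show (p (cor D x))⁻¹ * (U (cor D x) * p' (cor D x)) = 1
    rw [hcor]; group
  · show vV' κ = ((p κ)⁻¹ * (U κ * p' κ))⁻¹ * vV κ * ((p (Q.fc κ))⁻¹ * (U (Q.fc κ) * p' (Q.fc κ)))
    rw [hp.fc, hp'.fc, hU3]; group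
  · show vH' κ = ((p κ)⁻¹ * (U κ * p' κ))⁻¹ * vH κ * ((p (Q.fa κ))⁻¹ * (U (Q.fa κ) * p' (Q.fa κ)))
    have h3 := hHH κ
    unfold HH at h3
    have h4 : U κ * p' κ * vH' κ * (U (Q.fa κ) * p' (Q.fa κ))⁻¹ =
      p κ * vH κ * (p (Q.fa κ))⁻¹ := h3
    have h5 : vH' κ = (U κ * p' κ)⁻¹ * (p κ * vH κ * (p (Q.fa κ))⁻¹) *
        (U (Q.fa κ) * p' (Q.fa κ)) := by rw [← h4]; group
    rw [h5]; group

end Pool.Agent.Helper35_WH
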