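import Pool.Agent.Helper97_WH.Orb

/-!
# REC
-/

namespace Pool.Agent.Helper35_WH

open H97

namespace H97

variable {Q : Quad} (D : Q.RimData) {M : Type} [Group M]

/-- the value of a horizontal side moved to potential coordinates -/
def HH (vH p : Q.K → M) (κ : Q.K) : M := p κ * vH κ * (p (Q.fa κ))⁻¹

theorem HH_nu {vV vH p : Q.K → M} (h : Q.Rep vV vH) (hp : Q.Pot vV p) (κ : Q.K) :
    HH vH p (Q.nu κ) = HH vH p κ := by
  unfold HH
  rw [hp.nu, h.nuH, ← Q.nufa, hp.nu]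

theorem HH_fc {vV vH p : Q.K → M} (h : Q.Rep vV vH) (hp : Q.Pot vV p) (κ : Q.K) :
    HH vH p (Q.fc κ) = HH vH p κ := by
  unfold HH
  have h1 := h.flat κ
  rw [hp.fc, hp.fc] at h1
  rw [Q.fafc]
  have h2 : vH (Q.fc κ) = (p (Q.fc κ))⁻¹ * p κ * (vH κ * ((p (Q.fa κ))⁻¹ * p (Q.fc (Q.fa κ)))) := by
    rw [h1]; group
  rw [h2]; group

theorem HH_AV {vV vH p : Q.K → M} (h : Q.Rep vV vH) (hp : Q.Pot vV p) {x : D.R.E}
    (hx : (D.e x).1.2 = false) : HH vH p (cor D (D.AV.A x)) = HH vH p (cor D x) :=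
  cor_AV_false D (HH vH p) (HH_nu h hp) (HH_fc h hp) hx

theorem bv_false {vV vH : Q.K → M} {x : D.R.E} (hx : (D.e x).1.2 = false) :
    D.bv vV vH x = vH (cor D x) := by
  unfold Quad.RimData.bv cor
  rw [hx]; simp

theorem bv_true {vV vH : Q.K → M} {x : D.R.E} (hx : (D.e x).1.2 = true) :
    D.bv vV vH x = vV (cor D x) := by
  unfold Quad.RimData.bv cor
  rw [hx]; simp

theorem cor_AV_φ_false {x : D.R.E} (hx : (D.e x).1.2 = false) :
    cor D (D.AV.A (D.R.φ x)) = Q.fa (cor D (D.AV.A x)) := by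
  rw [D.AV.comm]
  exact (cor_φ_false D (D.AV_false x hx).1).1

end H97

theorem recS : RecStatement := by
  classical
  intro Q D M _
  refine ⟨?_, ?_⟩
  · intro vV vH hR
    have hBd : D.R.Bd (D.bv vV vH) := by
      intro x
      cases hx : (D.e x).1.2
      · obtain ⟨h1, h2⟩ := cor_φ_false D hx
        rw [bv_false D hx, bv_false D h2, h1, hR.faH]
      · obtain ⟨h1, h2⟩ := cor_φ_true D hx
        rw [bv_true D hx, bv_true D h2, h1, hR.fcV]
    refine ⟨hBd, fun p hp => ?_⟩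
    set a : D.R.E → M := fun x =>
        if (D.e x).1.2 then D.bv vV vH x else (p (D.e x).1.1)⁻¹ * p (D.e (D.AV.A x)).1.1 with ha
    have ha0 : ∀ x, (D.e x).1.2 = false → a x = (p (cor D x))⁻¹ * p (cor D (D.AV.A x)) := by
      intro x hx
      simp only [ha]
      rw [if_neg (by rw [hx]; simp)]
      rfl
    have ha1 : ∀ x, (D.e x).1.2 = true → a x = vV (cor D x) := by
      intro x hx
      simp only [ha]
      rw [if_pos hx, bv_true D hx]
    refine ⟨?_, ?_, ?_, fun x => p (cor D x), ?_, ?_⟩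
    · intro x
      cases hx : (D.e x).1.2
      · rw [ha0 x hx, ha0 _ (D.AV_false x hx).1, D.AV.AA]; group
      · obtain ⟨h1, h2⟩ := cor_AV_true D hx
        rw [ha1 x hx, ha1 _ h2, h1, hR.fcV]
    · intro x hx'
      cases hx : (D.e x).1.2
      · exact absurd hx' (AV_ne_φ D hx)
      · rw [ha1 x hx, bv_true D hx]
    · intro x hx'
      cases hx : (D.e x).1.2
      · obtain ⟨h1, h2⟩ := cor_φ_false D hx
        rw [ha0 x hx, ha0 _ h2, bv_false D hx, bv_false D (D.AV_false x hx).1, h1,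
          cor_AV_φ_false D hx]
        have h3 := HH_AV D hR hp hx
        unfold HH at h3
        have h4 : p (cor D (D.AV.A x)) = p (cor D x) * vH (cor D x) * (p (Q.fa (cor D x)))⁻¹ *
            p (Q.fa (cor D (D.AV.A x))) * (vH (cor D (D.AV.A x)))⁻¹ := by
          rw [← h3]; group
        rw [h4]; group
      · exact absurd (D.AV_true x hx) hx'
    · intro x
      exact cor_σ D p hp.nu hp.eta x
    · intro x
      show p (cor D (D.AV.A x)) = p (cor D x) * a x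
      cases hx : (D.e x).1.2
      · rw [ha0 x hx]; group
      · rw [ha1 x hx, (cor_AV_true D hx).1, hp.fc]; group
  · intro hS b a hb hsol
    obtain ⟨s1, s2, s3, r, hr1, hr2⟩ := hsol
    obtain ⟨p, hp1, hp2, hp3, -⟩ := vert_fun D (1 : M) r hr1
    obtain ⟨h, hh1, hh2, hh3⟩ := strip_fun D hS (fun x => r x * b x * (r (D.R.φ x))⁻¹) (by
      intro x hx
      show r (D.AV.A x) * b (D.AV.A x) * (r (D.R.φ (D.AV.A x)))⁻¹ = r x * b x * (r (D.R.φ x))⁻¹
      rw [← D.AV.comm, hr2, hr2, s3 x (AV_ne_φ D hx)]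
      group)
    have hfa : ∀ κ, h (Q.fa κ) = (h κ)⁻¹ := by
      intro κ
      obtain ⟨x, hx1, hx2⟩ := strip_exists D hS κ
      obtain ⟨h1, h2⟩ := cor_φ_false D hx1
      rw [hh3 κ x hx1 hx2, hh3 (Q.fa κ) (D.R.φ x) h2 (by
        rw [h1]
        exact orb_map Q.fa (fun k => (Q.nufa k).symm) Q.fafc hx2), D.R.φφ, hb x]
      group
    refine ⟨fun κ => (p κ)⁻¹ * p (Q.fc κ), fun κ => (p κ)⁻¹ * h κ * p (Q.fa κ), p,
      ⟨?_, ?_, ?_, ?_, ?_⟩, ⟨hp1, hp2, fun κ => rfl⟩, ?_, ?_⟩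
    · intro κ
      show (p (Q.fc κ))⁻¹ * p (Q.fc (Q.fc κ)) = ((p κ)⁻¹ * p (Q.fc κ))⁻¹
      rw [Q.fcfc]; group
    · intro κ
      show (p (Q.eta κ))⁻¹ * p (Q.fc (Q.eta κ)) = (p κ)⁻¹ * p (Q.fc κ)
      rw [← Q.etafc, hp2, hp2]
    · intro κ
      show (p (Q.fa κ))⁻¹ * h (Q.fa κ) * p (Q.fa (Q.fa κ)) = ((p κ)⁻¹ * h κ * p (Q.fa κ))⁻¹
      rw [Q.fafa, hfa]; group
    · intro κ
      show (p (Q.nu κ))⁻¹ * h (Q.nu κ) * p (Q.fa (Q.nu κ)) = (p κ)⁻¹ * h κ * p (Q.fa κ)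
      rw [← Q.nufa, hp1, hp1, hh1]
    · intro κ
      show (p κ)⁻¹ * h κ * p (Q.fa κ) * ((p (Q.fa κ))⁻¹ * p (Q.fc (Q.fa κ))) =
        (p κ)⁻¹ * p (Q.fc κ) * ((p (Q.fc κ))⁻¹ * h (Q.fc κ) * p (Q.fa (Q.fc κ)))
      rw [hh2, Q.fafc]; group
    · intro x
      cases hx : (D.e x).1.2
      · obtain ⟨h1, h2⟩ := cor_φ_false D hx
        rw [bv_false D hx]
        show (p (cor D x))⁻¹ * h (cor D x) * p (Q.fa (cor D x)) = b x
        rw [← h1, hp3, hp3, hh3 _ x hx (orb_refl _)]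
        group
      · rw [bv_true D hx]
        show (p (cor D x))⁻¹ * p (Q.fc (cor D x)) = b x
        rw [← (cor_AV_true D hx).1, hp3, hp3, hr2, s2 x (D.AV_true x hx)]
        group
    · intro x hx
      show a x = (p (cor D x))⁻¹ * p (cor D (D.AV.A x))
      rw [hp3, hp3, hr2]
      group

end Pool.Agent.Helper35_WH
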