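import Pool.Agent.Helper35_WH.Stmt2

/-!
# Tools for block S: orbits, parity of invariant sets, constancy along strips
-/

namespace Pool.Agent.Helper35_WH.H97

open Pool.Agent.Helper35_WH

section orb

variable {K : Type} {f g : K → K}

theorem orb_refl (k : K) : Orb f g k k := fun _ _ _ h => h

theorem orb_trans {a b c : K} (h1 : Orb f g a b) (h2 : Orb f g b c) : Orb f g a c :=
  fun P hf hg h => h2 P hf hg (h1 P hf hg h)

theorem orb_f (k : K) : Orb f g k (f k) := fun _ hf _ h => hf _ h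

theorem orb_g (k : K) : Orb f g k (g k) := fun _ _ hg h => hg _ h

theorem orb_symm (hff : ∀ k, f (f k) = k) (hgg : ∀ k, g (g k) = k) {a b : K}
    (h : Orb f g a b) : Orb f g b a := by
  refine h (fun y => Orb f g y a) (fun x hx => ?_) (fun x hx => ?_) (orb_refl a)
  · have := orb_f (f := f) (g := g) (f x)
    rw [hff] at this
    exact orb_trans this hx
  · have := orb_g (f := f) (g := g) (g x)
    rw [hgg] at this
    exact orb_trans this hx

theorem orb_const {β : Type*} (F : K → β) (hf : ∀ k, F (f k) = F k) (hg : ∀ k, F (g k) = F k)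
    {a b : K} (h : Orb f g a b) : F b = F a :=
  h (fun y => F y = F a) (fun x hx => by rw [hf, hx]) (fun x hx => by rw [hg, hx]) rfl

/-- transport by a map commuting with the generators -/
theorem orb_map (θ : K → K) (hf : ∀ k, θ (f k) = f (θ k)) (hg : ∀ k, θ (g k) = g (θ k))
    {a b : K} (h : Orb f g a b) : Orb f g (θ a) (θ b) := by
  refine h (fun y => Orb f g (θ a) (θ y)) (fun x hx => ?_) (fun x hx => ?_) (orb_refl _)
  · rw [hf]; exact orb_trans hx (orb_f _)
  · rw [hg]; exact orb_trans hx (orb_g _)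

end orb

/-- An invariant set has the same parity as the set of its fixed points. -/
theorem parity_inv {K : Type} [DecidableEq K] (f : K → K) (hf : ∀ k, f (f k) = k)
    (S : Finset K) (hS : ∀ k ∈ S, f k ∈ S) :
    (S.card : ZMod 2) = ((S.filter (fun k => f k = k)).card : ZMod 2) := by
  have h1 := Finset.card_filter_add_card_filter_not (s := S) (fun k => f k = k)
  rw [← h1]
  push_cast
  have h2 : (((S.filter (fun k => ¬ f k = k)).card : ℕ) : ZMod 2) = 0 := by
    rw [Finset.card_eq_sum_ones]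
    push_cast
    refine Finset.sum_involution (fun a _ => f a) ?_ ?_ ?_ ?_
    · intro a _
      decide
    · intro a ha _
      exact (Finset.mem_filter.1 ha).2
    · intro a ha
      rw [Finset.mem_filter] at ha ⊢
      refine ⟨hS _ ha.1, ?_⟩
      rw [hf]
      exact fun h => ha.2 h.symm
    · intro a _
      exact hf a
  rw [h2, add_zero]

/-- An invariant set without fixed points is even. -/
theorem parity_free {K : Type} [DecidableEq K] (f : K → K) (hf : ∀ k, f (f k) = k)
    (S : Finset K) (hS : ∀ k ∈ S, f k ∈ S) (hn : ∀ k ∈ S, f k ≠ k) :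
    (S.card : ZMod 2) = 0 := by
  rw [parity_inv f hf S hS]
  have : S.filter (fun k => f k = k) = ∅ := by
    rw [Finset.filter_eq_empty_iff]
    intro k hk
    exact hn k hk
  rw [this]
  simp

section quad

variable {Q : Quad} (D : Q.RimData)

/-- the corner of an element of the rim -/
def cor (x : D.R.E) : Q.K := (D.e x).1.1

theorem bdry_false {y : Q.K × Bool} (hy : Q.Bdry y) (h : y.2 = false) : Q.nu y.1 = y.1 := by
  unfold Quad.Bdry at hy
  rw [h] at hy
  simpa using hy

theorem bdry_true {y : Q.K × Bool} (hy : Q.Bdry y) (h : y.2 = true) : Q.eta y.1 = y.1 := by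
  unfold Quad.Bdry at hy
  rw [h] at hy
  simpa using hy

theorem bd_false {x : D.R.E} (h : (D.e x).1.2 = false) : Q.nu (cor D x) = cor D x :=
  bdry_false (D.e x).2 h

theorem bd_true {x : D.R.E} (h : (D.e x).1.2 = true) : Q.eta (cor D x) = cor D x :=
  bdry_true (D.e x).2 h

/-- elements of the rim are determined by the corner and the type -/
theorem ext_cor {x y : D.R.E} (h1 : cor D x = cor D y) (h2 : (D.e x).1.2 = (D.e y).1.2) :
    x = y := by
  apply D.e.injective
  apply Subtype.ext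
  exact Prod.ext h1 h2

theorem cor_φ_false {x : D.R.E} (h : (D.e x).1.2 = false) :
    cor D (D.R.φ x) = Q.fa (cor D x) ∧ (D.e (D.R.φ x)).1.2 = false := by
  have := D.φ_false x h
  exact ⟨congrArg Prod.fst this, congrArg Prod.snd this⟩

theorem cor_φ_true {x : D.R.E} (h : (D.e x).1.2 = true) :
    cor D (D.R.φ x) = Q.fc (cor D x) ∧ (D.e (D.R.φ x)).1.2 = true := by
  have := D.φ_true x h
  exact ⟨congrArg Prod.fst this, congrArg Prod.snd this⟩

theorem cor_AV_true {x : D.R.E} (h : (D.e x).1.2 = true) :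
    cor D (D.AV.A x) = Q.fc (cor D x) ∧ (D.e (D.AV.A x)).1.2 = true := by
  rw [D.AV_true x h]
  exact cor_φ_true D h

theorem AV_ne_φ {x : D.R.E} (h : (D.e x).1.2 = false) : D.AV.A x ≠ D.R.φ x := by
  intro h1
  have h2 := orb_const Q.colA Q.colA_nu Q.colA_fc (D.AV_false x h).2
  rw [h1] at h2
  have h3 := (cor_φ_false D h).1
  unfold cor at h3
  rw [h3, Q.colA_fa] at h2
  cases h4 : Q.colA (D.e x).1.1 <;> rw [h4] at h2 <;> simp at h2

theorem cor_σ {β : Type*} (F : Q.K → β) (h1 : ∀ k, F (Q.nu k) = F k) (h2 : ∀ k, F (Q.eta k) = F k)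
    (x : D.R.E) : F (cor D (D.R.σ x)) = F (cor D x) := orb_const F h1 h2 (D.σ_orb x)

theorem cor_AV_false {β : Type*} (F : Q.K → β) (h1 : ∀ k, F (Q.nu k) = F k)
    (h2 : ∀ k, F (Q.fc k) = F k) {x : D.R.E} (h : (D.e x).1.2 = false) :
    F (cor D (D.AV.A x)) = F (cor D x) := orb_const F h1 h2 (D.AV_false x h).2

/-- an element of the rim for a corner on a boundary side -/
def flagH (κ : Q.K) (h : Q.nu κ = κ) : D.R.E :=
  D.e.symm ⟨(κ, false), by unfold Quad.Bdry; simpa using h⟩

theorem flagH_cor (κ : Q.K) (h : Q.nu κ = κ) : cor D (flagH D κ h) = κ := by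
  unfold cor flagH
  rw [Equiv.apply_symm_apply]

theorem flagH_snd (κ : Q.K) (h : Q.nu κ = κ) : (D.e (flagH D κ h)).1.2 = false := by
  unfold flagH
  rw [Equiv.apply_symm_apply]

/-- the end of the strip of a corner -/
theorem strip_exists (hS : Q.Strips) (κ : Q.K) :
    ∃ x : D.R.E, (D.e x).1.2 = false ∧ Orb Q.nu Q.fc κ (cor D x) := by
  obtain ⟨κ', h1, h2⟩ := hS κ
  refine ⟨flagH D κ' h2, flagH_snd D κ' h2, ?_⟩
  rw [flagH_cor]
  exact h1

/-- functions on strips: `F` is defined on the rim elements of horizontal type and invariant under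
`AV` -/
theorem strip_fun {β : Type*} (hS : Q.Strips) (u : D.R.E → β)
    (hu : ∀ x, (D.e x).1.2 = false → u (D.AV.A x) = u x) :
    ∃ U : Q.K → β, (∀ κ, U (Q.nu κ) = U κ) ∧ (∀ κ, U (Q.fc κ) = U κ) ∧
      ∀ κ x, (D.e x).1.2 = false → Orb Q.nu Q.fc κ (cor D x) → U κ = u x := by
  choose s hs1 hs2 using strip_exists D hS
  have key : ∀ κ x, (D.e x).1.2 = false → Orb Q.nu Q.fc κ (cor D x) → u (s κ) = u x := by
    intro κ x hx1 hx2
    have h1 : Orb Q.nu Q.fc (cor D x) (cor D (s κ)) :=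
      orb_trans (orb_symm Q.nunu Q.fcfc hx2) (hs2 κ)
    rcases D.AV_uni x (s κ) hx1 (hs1 κ) h1 with h2 | h2
    · rw [h2]
    · rw [h2, hu x hx1]
  refine ⟨fun κ => u (s κ), fun κ => ?_, fun κ => ?_, key⟩
  · exact key _ _ (hs1 κ) (orb_trans (by
      have := orb_f (f := Q.nu) (g := Q.fc) (Q.nu κ)
      rwa [Q.nunu] at this) (hs2 κ))
  · exact key _ _ (hs1 κ) (orb_trans (by
      have := orb_g (f := Q.nu) (g := Q.fc) (Q.fc κ)
      rwa [Q.fcfc] at this) (hs2 κ))

/-- functions at vertices of the rim extend to the corners -/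
theorem vert_fun {β : Type*} (d : β) (r : D.R.E → β) (hr : ∀ x, r (D.R.σ x) = r x) :
    ∃ p : Q.K → β, (∀ κ, p (Q.nu κ) = p κ) ∧ (∀ κ, p (Q.eta κ) = p κ) ∧
      (∀ x, p (cor D x) = r x) ∧
      ∀ κ, (∀ x, ¬ Orb Q.nu Q.eta κ (cor D x)) → p κ = d := by
  classical
  let p : Q.K → β := fun κ =>
    if h : ∃ x, Orb Q.nu Q.eta κ (cor D x) then r h.choose else d
  have key : ∀ κ x, Orb Q.nu Q.eta κ (cor D x) → p κ = r x := by
    intro κ x hx
    have hex : ∃ x, Orb Q.nu Q.eta κ (cor D x) := ⟨x, hx⟩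
    have h1 : p κ = r hex.choose := dif_pos hex
    rw [h1]
    have h2 : Orb Q.nu Q.eta (cor D x) (cor D hex.choose) :=
      orb_trans (orb_symm Q.nunu Q.etaeta hx) hex.choose_spec
    rcases D.σ_uni x _ h2 with h3 | h3
    · rw [h3]
    · rw [h3, hr]
  have key2 : ∀ κ κ', Orb Q.nu Q.eta κ κ' → p κ' = p κ := by
    intro κ κ' h
    by_cases hex : ∃ x, Orb Q.nu Q.eta κ (cor D x)
    · obtain ⟨x, hx⟩ := hex
      rw [key κ x hx, key κ' x (orb_trans (orb_symm Q.nunu Q.etaeta h) hx)]
    · have h1 : p κ = d := dif_neg hex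
      have h2 : p κ' = d := dif_neg (fun ⟨x, hx⟩ => hex ⟨x, orb_trans h hx⟩)
      rw [h1, h2]
  refine ⟨p, fun κ => key2 _ _ (orb_f κ), fun κ => key2 _ _ (orb_g κ),
    fun x => key _ x (orb_refl _), fun κ h => dif_neg (fun ⟨x, hx⟩ => h x hx)⟩

end quad

end Pool.Agent.Helper35_WH.H97
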