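import Pool.Agent.Helper97_WH.REC

/-!
# SURF
-/

namespace Pool.Agent.Helper35_WH

open H97

namespace H97

theorem orb_swap {K : Type} {f g : K → K} {a b : K} (h : Orb f g a b) : Orb g f a b :=
  fun P hf hg hp => h P hg hf hp

/-- exchanging the two types of boundary sides -/
def bdT (Q : Quad) : {x : Q.K × Bool // Q.Bdry x} ≃ {x : Q.T.K × Bool // Q.T.Bdry x} where
  toFun x := ⟨(x.1.1, !x.1.2), by
    obtain ⟨⟨κ, b⟩, h⟩ := x
    cases b
    · exact h
    · exact h⟩
  invFun x := ⟨(x.1.1, !x.1.2), by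
    obtain ⟨⟨κ, b⟩, h⟩ := x
    cases b
    · exact h
    · exact h⟩
  left_inv x := by
    obtain ⟨⟨κ, b⟩, h⟩ := x
    simp
  right_inv x := by
    obtain ⟨⟨κ, b⟩, h⟩ := x
    simp

theorem bdT_fst (Q : Quad) (x) : (bdT Q x).1.1 = x.1.1 := rfl

theorem bdT_snd (Q : Quad) (x) : (bdT Q x).1.2 = !x.1.2 := rfl

theorem bdT_coe (Q : Quad) (x) : (bdT Q x).1 = (x.1.1, !x.1.2) := rfl

/-- the transposed rim data -/
def rimT {Q : Quad} (D : Q.RimData) : Q.T.RimData where
  R := D.R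
  e := D.e.trans (bdT Q)
  AV := D.AH
  AH := D.AV
  φ_false x hx := by
    have h1 : (D.e x).1.2 = true := by
      have : (!(D.e x).1.2) = false := hx
      simpa using this
    have h2 := D.φ_true x h1
    show ((D.e (D.R.φ x)).1.1, !(D.e (D.R.φ x)).1.2) = (Q.fc (D.e x).1.1, false)
    rw [h2]; rfl
  φ_true x hx := by
    have h1 : (D.e x).1.2 = false := by
      have : (!(D.e x).1.2) = true := hx
      simpa using this
    have h2 := D.φ_false x h1
    show ((D.e (D.R.φ x)).1.1, !(D.e (D.R.φ x)).1.2) = (Q.fa (D.e x).1.1, true)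
    rw [h2]; rfl
  σ_orb x := orb_swap (D.σ_orb x)
  σ_uni x y h := D.σ_uni x y (orb_swap h)
  AV_false x hx := by
    have h1 : (D.e x).1.2 = true := by
      have : (!(D.e x).1.2) = false := hx
      simpa using this
    obtain ⟨h2, h3⟩ := D.AH_true x h1
    refine ⟨?_, h3⟩
    show (!(D.e (D.AH.A x)).1.2) = false
    rw [h2]; rfl
  AV_uni x y hx hy h := by
    have h1 : (D.e x).1.2 = true := by
      have : (!(D.e x).1.2) = false := hx
      simpa using this
    have h2 : (D.e y).1.2 = true := by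
      have : (!(D.e y).1.2) = false := hy
      simpa using this
    exact D.AH_uni x y h1 h2 h
  AV_true x hx := by
    have h1 : (D.e x).1.2 = false := by
      have : (!(D.e x).1.2) = true := hx
      simpa using this
    exact D.AH_false x h1
  AH_true x hx := by
    have h1 : (D.e x).1.2 = false := by
      have : (!(D.e x).1.2) = true := hx
      simpa using this
    obtain ⟨h2, h3⟩ := D.AV_false x h1
    refine ⟨?_, h3⟩
    show (!(D.e (D.AV.A x)).1.2) = true
    rw [h2]; rfl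
  AH_uni x y hx hy h := by
    have h1 : (D.e x).1.2 = false := by
      have : (!(D.e x).1.2) = true := hx
      simpa using this
    have h2 : (D.e y).1.2 = false := by
      have : (!(D.e y).1.2) = true := hy
      simpa using this
    exact D.AV_uni x y h1 h2 h
  AH_false x hx := by
    have h1 : (D.e x).1.2 = true := by
      have : (!(D.e x).1.2) = false := hx
      simpa using this
    exact D.AV_true x h1

section

variable {Q : Quad} (D : Q.RimData)

theorem rimT_snd (x : D.R.E) : ((rimT D).e x).1.2 = !(D.e x).1.2 := rfl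

theorem rimT_cor (x : D.R.E) : cor (rimT D) x = cor D x := rfl

theorem repT {M : Type} [Group M] {vV vH : Q.K → M} (h : Q.Rep vV vH) : Q.T.Rep vH vV :=
  ⟨h.faH, h.nuH, h.fcV, h.etaV, fun κ => (h.flat κ).symm⟩

theorem bvT {M : Type} [Group M] (vV vH : Q.K → M) (x : D.R.E) :
    (rimT D).bv vH vV x = D.bv vV vH x := by
  cases hx : (D.e x).1.2
  · have h1 : ((rimT D).e x).1.2 = true := by rw [rimT_snd, hx]; rfl
    exact (bv_true (rimT D) h1).trans (bv_false D hx).symm
  · have h1 : ((rimT D).e x).1.2 = false := by rw [rimT_snd, hx]; rfl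
    exact (bv_false (rimT D) h1).trans (bv_true D hx).symm

/-- invariant functions on the rim extend to functions invariant under all maps -/
theorem extend_all (h2 : ExtendStatement) (hS : Q.Strips) (hF : Q.Forest) (f : D.R.E → Bool)
    (hf : D.R.Inv f) (hA : ∀ e, f (D.AV.A e) = f e) :
    ∃ U : Q.K → Bool, (∀ κ, U (Q.nu κ) = U κ) ∧ (∀ κ, U (Q.eta κ) = U κ) ∧
      (∀ κ, U (Q.fc κ) = U κ) ∧ (∀ κ, U (Q.fa κ) = U κ) ∧ ∀ x, U (cor D x) = f x := by
  obtain ⟨U, hU1, hU2, hU3, hU4⟩ := h2 Q D hS hF Bool f hf.1 hA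
  refine ⟨U, hU1, hU2, hU3, ?_, hU4⟩
  intro κ
  obtain ⟨x, hx1, hx2⟩ := strip_exists D hS κ
  have e1 : U (cor D x) = U κ := orb_const U hU1 hU3 hx2
  have e2 : U (Q.fa (cor D x)) = U (Q.fa κ) :=
    orb_const U hU1 hU3 (orb_map Q.fa (fun k => (Q.nufa k).symm) Q.fafc hx2)
  rw [← e1, ← e2, ← (cor_φ_false D hx1).1]
  have e3 : U (cor D (D.R.φ x)) = f (D.R.φ x) := hU4 _
  have e4 : U (cor D x) = f x := hU4 _
  rw [e3, e4, hf.2]

theorem invIff_one (h2 : ExtendStatement) (hS : Q.Strips) (hF : Q.Forest) (f : D.R.E → Bool)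
    (hf : D.R.Inv f) (hA : ∀ e, f (D.AV.A e) = f e) : ∀ e, f (D.AH.A e) = f e := by
  obtain ⟨U, hU1, hU2, hU3, hU4, hU5⟩ := extend_all D h2 hS hF f hf hA
  intro x
  cases hx : (D.e x).1.2
  · rw [D.AH_false x hx, hf.2]
  · rw [← hU5, ← hU5 x]
    exact orb_const U hU2 hU4 (D.AH_true x hx).2

/-- the relation between solutions for the two chord systems -/
def Rl {M : Type} [Group M] (b a a' : D.R.E → M) : Prop :=
  ∃ vV vH p q : Q.K → M, Q.Rep vV vH ∧ Q.Pot vV p ∧ Q.T.Pot vH q ∧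
    (∀ x, D.bv vV vH x = b x) ∧
    (∀ x, (D.e x).1.2 = false → a x = (p (cor D x))⁻¹ * p (cor D (D.AV.A x))) ∧
    ∀ x, (D.e x).1.2 = true → a' x = (q (cor D x))⁻¹ * q (cor D (D.AH.A x))

theorem Rl_T {M : Type} [Group M] (b a a' : D.R.E → M) : Rl (rimT D) b a' a ↔ Rl D b a a' := by
  constructor
  · rintro ⟨vH, vV, q, p, h1, h2, h3, h4, h5, h6⟩
    refine ⟨vV, vH, p, q, repT h1, h3, h2, fun x => ?_, fun x hx => ?_, fun x hx => ?_⟩
    · rw [← h4 x]; exact (bvT D vV vH x).symm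
    · refine h6 x ?_
      rw [rimT_snd, hx]; rfl
    · refine h5 x ?_
      rw [rimT_snd, hx]; rfl
  · rintro ⟨vV, vH, p, q, h1, h2, h3, h4, h5, h6⟩
    refine ⟨vH, vV, q, p, repT h1, h3, h2, fun x => ?_, fun x hx => ?_, fun x hx => ?_⟩
    · rw [← h4 x]; exact bvT D vV vH x
    · refine h6 x ?_
      have hx' : (!(D.e x).1.2) = false := hx
      simpa using hx'
    · refine h5 x ?_
      have hx' : (!(D.e x).1.2) = true := hx
      simpa using hx'

theorem Rl_exists (h3 : PotExistsStatement) (h4 : RecStatement) (hS : Q.Strips)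
    (hFT : Q.T.Forest) {M : Type} [Group M] {b a : D.R.E → M} (hb : D.R.Bd b)
    (ha : Sol D.AV b a) : ∃ a', Sol D.AH b a' ∧ Rl D b a a' := by
  obtain ⟨vV, vH, p, g1, g2, g3, g4⟩ := (h4 Q D M).2 hS b a hb ha
  obtain ⟨q, hq⟩ := h3 Q.T hFT M vH vV (repT g1)
  have g5 := ((h4 Q.T (rimT D) M).1 vH vV (repT g1)).2 q hq
  have g6 : (rimT D).bv vH vV = b := by
    funext x
    exact (bvT D vV vH x).trans (g3 x)
  rw [g6] at g5
  refine ⟨_, g5, vV, vH, p, q, g1, g2, hq, g3, g4, fun x hx => ?_⟩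
  have : ((rimT D).e x).1.2 = false := by rw [rimT_snd, hx]; rfl
  exact if_neg (by rw [this]; simp)

theorem Rl_unique (h5 : GaugeStatement) (hS : Q.Strips) (hF : Q.Forest) {M : Type} [Group M]
    {b a a₁ a₂ : D.R.E → M} (ha₁ : Sol D.AH b a₁) (ha₂ : Sol D.AH b a₂) (h₁ : Rl D b a a₁)
    (h₂ : Rl D b a a₂) : a₁ = a₂ := by
  obtain ⟨vV, vH, p, q, g1, g2, g3, g4, g5, g6⟩ := h₁
  obtain ⟨vV', vH', p', q', g1', g2', g3', g4', g5', g6'⟩ := h₂
  obtain ⟨γ, k1, k2, k3, k4, k5⟩ := h5 Q D hS hF M vV vH p vV' vH' p' g1 g1' g2 g2'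
    (fun x => by rw [g4, g4']) (fun x hx => (g5 x hx).symm.trans (g5' x hx))
  funext x
  cases hx : (D.e x).1.2
  · rw [ha₁.2.1 x (D.AH_false x hx), ha₂.2.1 x (D.AH_false x hx)]
  · rw [g6 x hx, g6' x hx]
    have key := orb_const (fun κ => q κ * γ κ * (q' κ)⁻¹) (fun κ => by
      show q (Q.eta κ) * γ (Q.eta κ) * (q' (Q.eta κ))⁻¹ = q κ * γ κ * (q' κ)⁻¹
      have e1 : q (Q.eta κ) = q κ := g3.nu κ
      have e2 : q' (Q.eta κ) = q' κ := g3'.nu κ
      rw [k2, e1, e2]) (fun κ => by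
      show q (Q.fa κ) * γ (Q.fa κ) * (q' (Q.fa κ))⁻¹ = q κ * γ κ * (q' κ)⁻¹
      have e1 : vH κ = (q κ)⁻¹ * q (Q.fa κ) := g3.fc κ
      have e2 : vH' κ = (q' κ)⁻¹ * q' (Q.fa κ) := g3'.fc κ
      have e3 := k5 κ
      rw [e1, e2] at e3
      have e4 : q' (Q.fa κ) = q' κ * ((γ κ)⁻¹ * ((q κ)⁻¹ * q (Q.fa κ)) * γ (Q.fa κ)) := by
        rw [← e3]; group
      rw [e4]; group) (D.AH_true x hx).2
    have e1 : γ (cor D x) = 1 := k3 x
    have e2 : γ (cor D (D.AH.A x)) = 1 := k3 _
    have key2 : q (cor D (D.AH.A x)) * γ (cor D (D.AH.A x)) * (q' (cor D (D.AH.A x)))⁻¹ =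
      q (cor D x) * γ (cor D x) * (q' (cor D x))⁻¹ := key
    rw [e1, e2, mul_one, mul_one] at key2
    have e3 : q (cor D (D.AH.A x)) = q (cor D x) * (q' (cor D x))⁻¹ * q' (cor D (D.AH.A x)) := by
      rw [← key2]; group
    rw [e3]; group

theorem Rl_P (h2 : ExtendStatement) (h5 : GaugeStatement) (hS : Q.Strips)
    (hF : Q.Forest) {M : Type} [Group M]
    {b a a' : D.R.E → M} (ha' : Sol D.AH b a') (h : Rl D b a a') (P : D.R.E → Bool)
    (hP : D.R.Inv P) (hPA : ∀ e, P (D.AV.A e) = P e) (hb1 : ∀ e, P e = false → b e = 1)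
    (ha1 : ∀ e, P e = false → a e = 1) : ∀ e, P e = false → a' e = 1 := by
  obtain ⟨U, hU1, hU2, hU3, hU4, hU5⟩ := extend_all D h2 hS hF P hP hPA
  obtain ⟨vV, vH, p, q, g1, g2, g3, g4, g5, g6⟩ := h
  -- the labelling cut to the components where `U` is true
  have hPH : ∀ e, P (D.AH.A e) = P e := invIff_one D h2 hS hF P hP hPA
  -- the gauge argument against the trivial labelling on the other components
  obtain ⟨γ, k1, k2, k3, k4, k5⟩ := h5 Q D hS hF M vV vH p
    (fun κ => if U κ then vV κ else 1) (fun κ => if U κ then vH κ else 1)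
    (fun κ => if U κ then p κ else 1) g1
    ⟨fun κ => by
      show (if U (Q.fc κ) then vV (Q.fc κ) else 1) = (if U κ then vV κ else 1)⁻¹
      rw [hU3]; split_ifs
      · exact g1.fcV κ
      · simp, fun κ => by
      show (if U (Q.eta κ) then vV (Q.eta κ) else 1) = (if U κ then vV κ else 1)
      rw [hU2]; split_ifs
      · exact g1.etaV κ
      · rfl, fun κ => by
      show (if U (Q.fa κ) then vH (Q.fa κ) else 1) = (if U κ then vH κ else 1)⁻¹
      rw [hU4]; split_ifs
      · exact g1.faH κ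
      · simp, fun κ => by
      show (if U (Q.nu κ) then vH (Q.nu κ) else 1) = (if U κ then vH κ else 1)
      rw [hU1]; split_ifs
      · exact g1.nuH κ
      · rfl, fun κ => by
      show (if U κ then vH κ else 1) * (if U (Q.fa κ) then vV (Q.fa κ) else 1) =
        (if U κ then vV κ else 1) * (if U (Q.fc κ) then vH (Q.fc κ) else 1)
      rw [hU3, hU4]; split_ifs
      · exact g1.flat κ
      · rfl⟩ g2
    ⟨fun κ => by
      show (if U (Q.nu κ) then p (Q.nu κ) else 1) = (if U κ then p κ else 1)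
      rw [hU1, g2.nu], fun κ => by
      show (if U (Q.eta κ) then p (Q.eta κ) else 1) = (if U κ then p κ else 1)
      rw [hU2, g2.eta], fun κ => by
      show (if U κ then vV κ else 1) = (if U κ then p κ else 1)⁻¹ *
        (if U (Q.fc κ) then p (Q.fc κ) else 1)
      rw [hU3]; split_ifs
      · exact g2.fc κ
      · simp⟩
    (fun x => by
      rw [g4]
      cases hx : (D.e x).1.2
      · rw [bv_false D hx, ← g4, bv_false D hx]
        show vH (cor D x) = if U (cor D x) then vH (cor D x) else 1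
        split_ifs with h
        · rfl
        · rw [← bv_false D (vV := vV) (vH := vH) hx, g4]
          exact hb1 x (by rw [← hU5]; simpa using h)
      · rw [bv_true D hx, ← g4, bv_true D hx]
        show vV (cor D x) = if U (cor D x) then vV (cor D x) else 1
        split_ifs with h
        · rfl
        · rw [← bv_true D (vV := vV) (vH := vH) hx, g4]
          exact hb1 x (by rw [← hU5]; simpa using h))
    (fun x hx => by
      show (p (cor D x))⁻¹ * p (cor D (D.AV.A x)) =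
        (if U (cor D x) then p (cor D x) else 1)⁻¹ *
          (if U (cor D (D.AV.A x)) then p (cor D (D.AV.A x)) else 1)
      rw [hU5, hU5, hPA]
      split_ifs with h
      · rfl
      · rw [← g5 x hx, ha1 x (by simpa using h)]; simp)
  intro x hPx
  cases hx : (D.e x).1.2
  · rw [ha'.2.1 x (D.AH_false x hx)]
    exact hb1 x hPx
  · rw [g6 x hx]
    have key := orb_const (fun κ => (if U κ then 1 else q κ * γ κ)) (fun κ => by
      show (if U (Q.eta κ) then 1 else q (Q.eta κ) * γ (Q.eta κ)) =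
        (if U κ then 1 else q κ * γ κ)
      have e1 : q (Q.eta κ) = q κ := g3.nu κ
      rw [k2, e1, hU2]) (fun κ => by
      show (if U (Q.fa κ) then 1 else q (Q.fa κ) * γ (Q.fa κ)) =
        (if U κ then 1 else q κ * γ κ)
      have e1 : vH κ = (q κ)⁻¹ * q (Q.fa κ) := g3.fc κ
      have e3 := k5 κ
      rw [hU4]
      split_ifs with h
      · rfl
      · rw [if_neg h, e1] at e3
        have e4 : q (Q.fa κ) * γ (Q.fa κ) =
          q κ * γ κ * ((γ κ)⁻¹ * ((q κ)⁻¹ * q (Q.fa κ)) * γ (Q.fa κ)) := by group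
        rw [e4, ← e3, mul_one]) (D.AH_true x hx).2
    have e1 : γ (cor D x) = 1 := k3 x
    have e2 : γ (cor D (D.AH.A x)) = 1 := k3 _
    have key2 : (if U (cor D (D.AH.A x)) then 1 else q (cor D (D.AH.A x)) *
        γ (cor D (D.AH.A x))) = (if U (cor D x) then 1 else q (cor D x) * γ (cor D x)) := key
    rw [hU5, hU5, hPH, hPx, e1, e2, mul_one, mul_one] at key2
    simp only [Bool.false_eq_true, if_false] at key2
    rw [key2]; group

end

end H97

theorem surf (h2 : ExtendStatement) (h3 : PotExistsStatement) (h4 : RecStatement)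
    (h5 : GaugeStatement) : SurfStatement := by
  classical
  intro Q D hS hF hST hFT
  have hinv : InvIff D.AV D.AH := fun f hf =>
    ⟨fun h => invIff_one D h2 hS hF f hf h, fun h => invIff_one (rimT D) h2 hST hFT f hf h⟩
  refine ⟨hinv, ?_⟩
  intro P hP hPA M _ b hb hb1
  have hPH := (hinv P hP).1 hPA
  choose F hF1 hF2 using fun a : {a : D.R.E → M // Sol D.AV b a ∧ ∀ e, P e = false → a e = 1} =>
    Rl_exists D h3 h4 hS hFT hb a.2.1
  have hF3 : ∀ a, ∀ e, P e = false → F a e = 1 := fun a =>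
    Rl_P D h2 h5 hS hF (hF1 a) (hF2 a) P hP hPA hb1 a.2.2
  refine ⟨Equiv.ofBijective (fun a => ⟨F a, hF1 a, hF3 a⟩) ⟨?_, ?_⟩⟩
  · intro a₁ a₂ h
    have h6 : F a₁ = F a₂ := congrArg Subtype.val h
    apply Subtype.ext
    have r1 : Rl (rimT D) b (F a₁) a₁.1 := (Rl_T D b a₁.1 (F a₁)).2 (hF2 a₁)
    have r2 : Rl (rimT D) b (F a₁) a₂.1 := by
      rw [h6]; exact (Rl_T D b a₂.1 (F a₂)).2 (hF2 a₂)
    exact Rl_unique (rimT D) h5 hST hFT a₁.2.1 a₂.2.1 r1 r2
  · rintro ⟨a', ha1, ha2⟩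
    obtain ⟨a, ha3, ha4⟩ := Rl_exists (rimT D) h3 h4 hST hF hb ha1
    have ha5 : ∀ e, P e = false → a e = 1 :=
      Rl_P (rimT D) h2 h5 hST hFT ha3 ha4 P hP hPH hb1 ha2
    refine ⟨⟨a, ha3, ha5⟩, ?_⟩
    apply Subtype.ext
    show F ⟨a, ha3, ha5⟩ = a'
    have r1 : Rl D b a a' := (Rl_T D b a a').1 ha4
    exact Rl_unique D h5 hS hF (hF1 _) ha1 (hF2 _) r1

end Pool.Agent.Helper35_WH
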